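import Mathlib

/-! An additive equation that acts on the exponents of monomials like a queue of digits. -/

namespace Pool.Agent.MP_28f2cb_lc.H49

open Finset

variable {K : Type*} [CommRing K]

/-- The queue equation with base `N`, marker digit `m`, source `I` and output `O`. -/
def Qu (N m : ℕ) (t T I O : K) : Prop :=
  ∃ b : ℕ → K, ∑ j ∈ range (m + 1), t ^ j * b j ^ N = I + ∑ j ∈ range m, T ^ j * b j ∧ b m = O

theorem Qu.zero {N : ℕ} (hN : N ≠ 0) (m : ℕ) (t T : K) : Qu N m t T 0 0 :=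
  ⟨fun _ => 0, by simp [hN], rfl⟩

theorem Qu.add (p k : ℕ) [Fact p.Prime] [CharP K p] {m : ℕ} {t T I O I' O' : K}
    (h : Qu (p ^ k) m t T I O) (h' : Qu (p ^ k) m t T I' O') :
    Qu (p ^ k) m t T (I + I') (O + O') := by
  obtain ⟨b, hb, rfl⟩ := h
  obtain ⟨b', hb', rfl⟩ := h'
  refine ⟨fun j => b j + b' j, ?_, rfl⟩
  simp only [add_pow_char_pow, mul_add, Finset.sum_add_distrib]
  linear_combination hb + hb'

theorem Qu.step {N : ℕ} (hN : N ≠ 0) {m j : ℕ} (hj : j < m) (t T z : K) :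
    Qu N m t T (t ^ j * z ^ N - T ^ j * z) 0 := by
  refine ⟨fun i => if i = j then z else 0, ?_, if_neg (by omega)⟩
  rw [Finset.sum_eq_single j, Finset.sum_eq_single j]
  · simp
  · intro i _ hi; simp [hi]
  · intro h; exact absurd (Finset.mem_range.2 hj) h
  · intro i _ hi; simp [hi, hN]
  · intro h; exact absurd (Finset.mem_range.2 (by omega)) h

theorem Qu.emit {N : ℕ} (hN : N ≠ 0) (m : ℕ) (t T z : K) : Qu N m t T (t ^ m * z ^ N) z := by
  refine ⟨fun i => if i = m then z else 0, ?_, if_pos rfl⟩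
  rw [Finset.sum_range_succ, Finset.sum_eq_zero, Finset.sum_eq_zero]
  · simp
  · intro i hi
    have := Finset.mem_range.1 hi
    simp [show i ≠ m by omega]
  · intro i hi
    have := Finset.mem_range.1 hi
    simp [show i ≠ m by omega, hN]

/-- `n` has `k` digits in base `N`, all smaller than `b` -/
def Dig (N b : ℕ) : ℕ → ℕ → Prop
  | 0, n => n = 0
  | k + 1, n => ∃ d n', d < b ∧ Dig N b k n' ∧ n = d + N * n'

theorem Dig.mono {N b b' : ℕ} (h : b ≤ b') : ∀ {k n : ℕ}, Dig N b k n → Dig N b' k n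
  | 0, _, h0 => h0
  | _ + 1, _, ⟨d, n', h1, h2, h3⟩ => ⟨d, n', h1.trans_le h, Dig.mono h h2, h3⟩

theorem Dig.zero {N b : ℕ} (h : 0 < b) : ∀ k : ℕ, Dig N b k 0
  | 0 => rfl
  | k + 1 => ⟨0, 0, h, Dig.zero h k, rfl⟩

theorem Dig.append {N b l hi : ℕ} (hh : Dig N b l hi) :
    ∀ {k lo : ℕ}, Dig N b k lo → Dig N b (l + k) (lo + N ^ k * hi)
  | 0, _, h0 => by
      have : _ = 0 := h0
      subst this
      simpa using hh
  | k + 1, _, ⟨d, n', h1, h2, h3⟩ =>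
      ⟨d, n' + N ^ k * hi, h1, Dig.append hh h2, by rw [h3]; ring⟩

theorem Dig.split {N : ℕ} (hN : 6 ≤ N) : ∀ k n : ℕ, n < N ^ k →
    ∃ lo hi, Dig N (N - 3) k lo ∧ Dig N (N - 2) k hi ∧ n = lo + hi
  | 0, n, h => ⟨0, 0, rfl, rfl, by simpa using h⟩
  | k + 1, n, h => by
      have h1 : n / N < N ^ k := by
        rw [Nat.div_lt_iff_lt_mul (by omega)]; rwa [pow_succ] at h
      obtain ⟨lo, hi, a, b, c⟩ := Dig.split hN k (n / N) h1
      have h2 : n % N < N := Nat.mod_lt _ (by omega)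
      have h3 : n % N + N * (n / N) = n := Nat.mod_add_div n N
      refine ⟨min (n % N) (N - 4) + N * lo, (n % N - (N - 4)) + N * hi,
        ⟨_, _, by omega, a, rfl⟩, ⟨_, _, by omega, b, rfl⟩, ?_⟩
      rw [c, mul_add] at h3
      omega

/-- reading `k` ordinary digits -/
theorem Qu.path (p e : ℕ) [Fact p.Prime] [CharP K p] (m P : ℕ) (t c : K) :
    ∀ (k r lo H : ℕ), k + r = P + 1 → Dig (p ^ e) m k lo →
      Qu (p ^ e) m t (t ^ (p ^ e) ^ P)
        (c ^ (p ^ e) ^ k * t ^ (lo + (p ^ e) ^ k * H) - c * t ^ (H + lo * (p ^ e) ^ r)) 0 := by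
  have hN : p ^ e ≠ 0 := pow_ne_zero _ (Fact.out : p.Prime).ne_zero
  intro k
  induction k with
  | zero =>
    intro r lo H _ h0
    have : lo = 0 := h0
    subst this
    simpa using Qu.zero hN m t (t ^ (p ^ e) ^ P)
  | succ k ih =>
    rintro r _ H hr ⟨d, lo, hd, hlo, rfl⟩
    have h1 := Qu.step hN hd t (t ^ (p ^ e) ^ P) (c ^ (p ^ e) ^ k * t ^ (lo + (p ^ e) ^ k * H))
    have h2 := ih (r + 1) lo (H + d * (p ^ e) ^ r) (by omega) hlo
    have h3 := Qu.add p e h1 h2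
    rw [add_zero] at h3
    obtain rfl : P = k + r := by omega
    generalize p ^ e = N at h3 ⊢
    have e1 : t ^ d * (c ^ N ^ k * t ^ (lo + N ^ k * H)) ^ N =
        c ^ N ^ (k + 1) * t ^ (d + N * lo + N ^ (k + 1) * H) := by
      rw [mul_pow, ← pow_mul, ← pow_mul, ← pow_succ, mul_left_comm, ← pow_add]
      congr 2; ring
    have e2 : (t ^ N ^ (k + r)) ^ d * (c ^ N ^ k * t ^ (lo + N ^ k * H)) =
        c ^ N ^ k * t ^ (lo + N ^ k * (H + d * N ^ r)) := by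
      rw [← pow_mul, mul_left_comm, ← pow_add]
      congr 2; ring
    have e3 : H + d * N ^ r + lo * N ^ (r + 1) = H + (d + N * lo) * N ^ r := by ring
    rw [e1, e2, e3, sub_add_sub_cancel] at h3
    exact h3

/-- a full run up to the marker -/
theorem Qu.run (p e : ℕ) [Fact p.Prime] [CharP K p] (m P : ℕ) (t c : K) (lo hi : ℕ)
    (h : Dig (p ^ e) m P lo) :
    Qu (p ^ e) m t (t ^ (p ^ e) ^ P)
      (c ^ (p ^ e) ^ (P + 1) * t ^ (lo + (p ^ e) ^ P * (m + p ^ e * hi))) (c * t ^ (lo + hi)) := by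
  have hN : p ^ e ≠ 0 := pow_ne_zero _ (Fact.out : p.Prime).ne_zero
  have h1 := Qu.path p e m P t (c ^ p ^ e) P 1 lo (m + p ^ e * hi) rfl h
  have h2 := Qu.emit hN m t (t ^ (p ^ e) ^ P) (c * t ^ (lo + hi))
  have h3 := Qu.add p e h1 h2
  generalize p ^ e = N at h3 ⊢
  have e1 : t ^ m * (c * t ^ (lo + hi)) ^ N = c ^ N * t ^ (m + N * hi + lo * N ^ 1) := by
    rw [mul_pow, ← pow_mul, mul_left_comm, ← pow_add]
    congr 2; ring
  rw [e1, sub_add_cancel, zero_add, ← pow_mul, ← pow_succ'] at h3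
  exact h3

/-- both queue equations for one monomial -/
theorem mono_sol (p k : ℕ) [Fact p.Prime] [CharP K p] (hN : 6 ≤ p ^ k) (t c : K) (e P n : ℕ)
    (hn : n < (p ^ k) ^ e) (hP : 2 * e + 1 ≤ P) (hc : c ^ (p ^ k) ^ (P + 1) = c) :
    ∃ y : K, Qu (p ^ k) (p ^ k - 2) t (t ^ (p ^ k) ^ P) ((t ^ (p ^ k) ^ P) ^ (p ^ k - 2) * y) y ∧
      Qu (p ^ k) (p ^ k - 3) t (t ^ (p ^ k) ^ e) y (c * t ^ n) := by
  obtain ⟨lo, hi, h1, h2, rfl⟩ := Dig.split hN e n hn
  refine ⟨_, ?_, Qu.run p k _ e t c lo hi h1⟩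
  have h3 : Dig (p ^ k) (p ^ k - 2) (e + 1) (p ^ k - 3 + p ^ k * hi) :=
    ⟨_, _, by omega, h2, rfl⟩
  have h4 := Dig.append h3 (Dig.mono (show p ^ k - 3 ≤ p ^ k - 2 by omega) h1)
  have h5 := Dig.append (Dig.zero (N := p ^ k) (show 0 < p ^ k - 2 by omega) (P - (e + 1 + e))) h4
  rw [mul_zero, add_zero, show P - (e + 1 + e) + (e + 1 + e) = P by omega] at h5
  have h6 := Qu.run p k _ P t (c ^ (p ^ k) ^ (e + 1)) _ 0 h5
  rw [← pow_mul c, mul_comm ((p ^ k) ^ (e + 1)), pow_mul c, hc, mul_zero, add_zero, add_zero,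
    pow_add t, pow_mul t] at h6
  rw [mul_left_comm, mul_comm ((t ^ (p ^ k) ^ P) ^ (p ^ k - 2))]
  exact h6

end Pool.Agent.MP_28f2cb_lc.H49
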