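import Pool.Agent.MP_28f2cb_lc.H49.Wound
import Pool.Agent.MP_28f2cb_lc.H49.Queue

/-! The polynomial ring is existentially definable in the rational function field over a field
that is algebraic over the prime field. -/

namespace Pool.Agent.MP_28f2cb_lc.H49

open Polynomial Finset

variable {F : Type*} [Field F]

theorem frob_period (p : ℕ) [Fact p.Prime] [CharP F p] [Algebra (ZMod p) F]
    [Algebra.IsAlgebraic (ZMod p) F] (c : F) : ∃ r, 0 < r ∧ c ^ p ^ r = c := by
  have hi : IsIntegral (ZMod p) c := Algebra.IsIntegral.isIntegral c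
  have := IntermediateField.adjoin.finiteDimensional hi
  set L := IntermediateField.adjoin (ZMod p) ({c} : Set F)
  have : Finite L := Module.finite_of_finite (ZMod p)
  have := Fintype.ofFinite L
  have : CharP L p := charP_of_injective_ringHom (algebraMap (ZMod p) L).injective p
  obtain ⟨n, -, hn⟩ := FiniteField.card L p
  refine ⟨n, n.pos, ?_⟩
  have h := FiniteField.pow_card (⟨c, IntermediateField.mem_adjoin_simple_self _ c⟩ : L)
  rw [hn] at h
  exact congrArg Subtype.val h

theorem pow_period {c : F} {q : ℕ} (h : c ^ q = c) (m : ℕ) : c ^ q ^ m = c := by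
  induction m with
  | zero => simp
  | succ m ih => rw [pow_succ, pow_mul, ih, h]

theorem Qu.sound (p k : ℕ) [Fact p.Prime] [CharP F p] {m : ℕ} (hm : m + 2 ≤ p ^ k)
    {T I O : RatFunc F} (hT : T ∈ PR F) (hI : I ∈ PR F)
    (h : Qu (p ^ k) m RatFunc.X T I O) : O ∈ PR F := by
  obtain ⟨b, hb, rfl⟩ := h
  refine lemB p k (m + 1) (by omega) b (fun j => if j < m then T ^ j else 0) I ?_ hI ?_ m
    (Nat.lt_succ_self m)
  · intro j _
    split_ifs
    exacts [(PR F).pow_mem hT _, (PR F).zero_mem]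
  · rw [hb, Finset.sum_range_succ, if_neg (lt_irrefl m), zero_mul, add_zero]
    congr 1
    exact Finset.sum_congr rfl fun j hj => by rw [if_pos (Finset.mem_range.1 hj)]

theorem Qu.sound_loop (p k : ℕ) [Fact p.Prime] [CharP F p] {m : ℕ} (hm : m + 2 ≤ p ^ k)
    {T O : RatFunc F} (hT : T ∈ PR F)
    (h : Qu (p ^ k) m RatFunc.X T (T ^ m * O) O) : O ∈ PR F := by
  obtain ⟨b, hb, rfl⟩ := h
  refine lemB p k (m + 1) (by omega) b (fun j => T ^ j) 0 (fun j _ => (PR F).pow_mem hT _)
    (PR F).zero_mem ?_ m (Nat.lt_succ_self m)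
  rw [hb, Finset.sum_range_succ]; ring

theorem poly_sol (p k : ℕ) [Fact p.Prime] [CharP F p] (hN : 6 ≤ p ^ k) (e P : ℕ)
    (hP : 2 * e + 1 ≤ P) (s : Finset ℕ) (c : ℕ → F) (hs : ∀ n ∈ s, n < (p ^ k) ^ e)
    (hc : ∀ n ∈ s, c n ^ (p ^ k) ^ (P + 1) = c n) :
    ∃ y : RatFunc F, Qu (p ^ k) (p ^ k - 2) RatFunc.X (RatFunc.X ^ (p ^ k) ^ P)
        ((RatFunc.X ^ (p ^ k) ^ P) ^ (p ^ k - 2) * y) y ∧
      Qu (p ^ k) (p ^ k - 3) RatFunc.X (RatFunc.X ^ (p ^ k) ^ e) y
        (ι F (∑ n ∈ s, C (c n) * X ^ n)) := by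
  have := charP_K (F := F) p
  induction s using Finset.induction_on with
  | empty =>
    refine ⟨0, ?_, ?_⟩
    · rw [mul_zero]; exact Qu.zero (by omega) _ _ _
    · rw [Finset.sum_empty, map_zero]; exact Qu.zero (by omega) _ _ _
  | insert n s hn ih =>
    obtain ⟨y, h1, h2⟩ := ih (fun a ha => hs a (Finset.mem_insert_of_mem ha))
      (fun a ha => hc a (Finset.mem_insert_of_mem ha))
    obtain ⟨z, h3, h4⟩ := mono_sol p k hN (RatFunc.X : RatFunc F) (ι F (C (c n))) e P n
      (hs n (Finset.mem_insert_self _ _)) hP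
      (by rw [← map_pow, ← C_pow, hc n (Finset.mem_insert_self _ _)])
    refine ⟨z + y, ?_, ?_⟩
    · rw [mul_add]; exact Qu.add p k h3 h1
    · rw [Finset.sum_insert hn, map_add, map_mul, map_pow, ι_X]; exact Qu.add p k h4 h2

/-- the system of six equations -/
def Sys {K : Type*} [CommRing K] (N : ℕ) (t x : K) : Prop :=
  ∃ T u w S u' w' y : K, T - t = u ^ N - u ∧ t - T = (w ^ N - w) * t * T ∧
    S - t = u' ^ N - u' ∧ t - S = (w' ^ N - w') * t * S ∧
    Qu N (N - 2) t T (T ^ (N - 2) * y) y ∧ Qu N (N - 3) t S y x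

theorem mem_iff_sys (p k : ℕ) [Fact p.Prime] (hN : 6 ≤ p ^ k) [Algebra (ZMod p) F]
    [Algebra.IsAlgebraic (ZMod p) F] (x : RatFunc F) :
    x ∈ PR F ↔ Sys (p ^ k) RatFunc.X x := by
  have : CharP F p := charP_of_injective_ringHom (algebraMap (ZMod p) F).injective p
  constructor
  · rintro ⟨f, rfl⟩
    choose r hr0 hr using frob_period (F := F) p
    set e := f.natDegree with he
    set R := ∏ n ∈ f.support, r (f.coeff n) with hR
    have hR0 : 0 < R := Finset.prod_pos fun n _ => hr0 _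
    have hle : 2 * e + 2 ≤ R * (2 * e + 2) := Nat.le_mul_of_pos_left _ hR0
    obtain ⟨y, h1, h2⟩ := poly_sol p k hN e (R * (2 * e + 2) - 1) (by omega) f.support f.coeff
      (fun n hn => (le_natDegree_of_mem_supp n hn).trans_lt (Nat.lt_pow_self (by omega)))
      (fun n hn => by
        obtain ⟨d, hd⟩ : r (f.coeff n) ∣ R := Finset.dvd_prod_of_mem _ hn
        rw [Nat.sub_add_cancel (by omega), ← pow_mul, hd,
          show k * (r (f.coeff n) * d * (2 * e + 2)) = r (f.coeff n) * (k * d * (2 * e + 2)) by ring,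
          pow_mul p]
        exact pow_period (hr _) _)
    rw [← as_sum_support_C_mul_X_pow] at h2
    obtain ⟨u, w, a1, a2⟩ := lemC_sol (F := F) p k (R * (2 * e + 2) - 1)
    obtain ⟨u', w', a3, a4⟩ := lemC_sol (F := F) p k e
    exact ⟨_, u, w, _, u', w', y, a1, a2, a3, a4, h1, h2⟩
  · rintro ⟨T, u, w, S, u', w', y, a1, a2, a3, a4, h1, h2⟩
    have hperf : ∀ e : F, ∃ d : F, d ^ p ^ k = e := by
      intro c
      obtain ⟨r, hr0, hr⟩ := frob_period p c
      refine ⟨c ^ p ^ ((r - 1) * k), ?_⟩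
      rw [← pow_mul, ← pow_add, show (r - 1) * k + k = r * k by
        obtain ⟨r, rfl⟩ : ∃ s, r = s + 1 := ⟨r - 1, by omega⟩
        rw [Nat.add_sub_cancel]; ring, pow_mul p]
      exact pow_period hr k
    have hT := lemC p k (by omega) hperf T u w a1 a2
    have hS := lemC p k (by omega) hperf S u' w' a3 a4
    exact Qu.sound p k (by omega) hS (Qu.sound_loop p k (by omega) hT h1) h2

theorem sq_sub_X (a b : RatFunc F) : a ^ 2 - RatFunc.X * b ^ 2 = 0 ↔ a = 0 ∧ b = 0 := by
  refine ⟨fun h => ?_, fun ⟨h1, h2⟩ => by rw [h1, h2]; ring⟩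
  by_cases hb : b = 0
  · refine ⟨?_, hb⟩
    rw [hb] at h
    simpa using h
  · exfalso
    have h1 : a ^ 2 = RatFunc.X * b ^ 2 := sub_eq_zero.1 h
    have h2 : RatFunc.X * b ^ 2 ≠ 0 := mul_ne_zero RatFunc.X_ne_zero (pow_ne_zero _ hb)
    have ha : a ≠ 0 := by rintro rfl; exact h2 (by rw [← h1]; ring)
    have h3 := congrArg RatFunc.intDegree h1
    rw [RatFunc.intDegree_mul RatFunc.X_ne_zero (pow_ne_zero _ hb), pow_two, pow_two,
      RatFunc.intDegree_mul ha ha, RatFunc.intDegree_mul hb hb, RatFunc.intDegree_X] at h3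
    omega

/-- the six equations joined into one polynomial expression -/
def joined {K : Type*} [CommRing K] (N : ℕ) (t x : K) (v : ℕ → K) : K :=
  ((((( v 0 - t - (v 1 ^ N - v 1)) ^ 2 - t * (t - v 0 - (v 2 ^ N - v 2) * t * v 0) ^ 2) ^ 2 -
    t * (v 3 - t - (v 4 ^ N - v 4)) ^ 2) ^ 2 - t * (t - v 3 - (v 5 ^ N - v 5) * t * v 3) ^ 2) ^ 2 -
    t * (∑ j ∈ range (N - 2 + 1), t ^ j * v (6 + j) ^ N -
      (v 0 ^ (N - 2) * v (6 + (N - 2)) + ∑ j ∈ range (N - 2), v 0 ^ j * v (6 + j))) ^ 2) ^ 2 -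
    t * (∑ j ∈ range (N - 3), t ^ j * v (6 + N + j) ^ N + t ^ (N - 3) * x ^ N -
      (v (6 + (N - 2)) + ∑ j ∈ range (N - 3), v 3 ^ j * v (6 + N + j))) ^ 2

theorem map_joined {K L : Type*} [CommRing K] [CommRing L] (f : K →+* L) (N : ℕ) (t x : K)
    (v : ℕ → K) : f (joined N t x v) = joined N (f t) (f x) (fun i => f (v i)) := by
  simp only [joined, map_sub, map_add, map_mul, map_pow, map_sum]

theorem joined_congr {K : Type*} [CommRing K] (N : ℕ) (hN : 6 ≤ N) (t x : K) (v v' : ℕ → K)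
    (h : ∀ i < 6 + N + N, v i = v' i) : joined N t x v = joined N t x v' := by
  unfold joined
  rw [h 0 (by omega), h 1 (by omega), h 2 (by omega), h 3 (by omega), h 4 (by omega),
    h 5 (by omega), h (6 + (N - 2)) (by omega),
    Finset.sum_congr rfl (s₂ := range (N - 2 + 1)) (g := fun j => t ^ j * v' (6 + j) ^ N)
      (fun j hj => by rw [h _ (by have := Finset.mem_range.1 hj; omega)]),
    Finset.sum_congr rfl (s₂ := range (N - 2)) (g := fun j => v' 0 ^ j * v' (6 + j))
      (fun j hj => by rw [h (6 + j) (by have := Finset.mem_range.1 hj; omega)]),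
    Finset.sum_congr rfl (s₂ := range (N - 3)) (f := fun j => t ^ j * v (6 + N + j) ^ N)
      (g := fun j => t ^ j * v' (6 + N + j) ^ N)
      (fun j hj => by rw [h _ (by have := Finset.mem_range.1 hj; omega)]),
    Finset.sum_congr rfl (s₂ := range (N - 3)) (f := fun j => v' 3 ^ j * v (6 + N + j))
      (g := fun j => v' 3 ^ j * v' (6 + N + j))
      (fun j hj => by rw [h _ (by have := Finset.mem_range.1 hj; omega)])]

theorem sys_iff_joined (N : ℕ) (hN : 6 ≤ N) (x : RatFunc F) :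
    Sys N RatFunc.X x ↔ ∃ v : ℕ → RatFunc F, joined N RatFunc.X x v = 0 := by
  simp only [joined, sq_sub_X]
  simp only [sub_eq_zero]
  constructor
  · rintro ⟨T, u, w, S, u', w', y, a1, a2, a3, a4, ⟨b, hb, rfl⟩, ⟨c, hc, rfl⟩⟩
    let v : ℕ → RatFunc F := fun i =>
      if i = 0 then T else if i = 1 then u else if i = 2 then w else if i = 3 then S else
      if i = 4 then u' else if i = 5 then w' else if i < 6 + N then b (i - 6) else c (i - (6 + N))
    have hvb : ∀ j < N, v (6 + j) = b j := by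
      intro j hj
      simp only [v]
      rw [if_neg (by omega), if_neg (by omega), if_neg (by omega), if_neg (by omega),
        if_neg (by omega), if_neg (by omega), if_pos (by omega), Nat.add_sub_cancel_left]
    have hvc : ∀ j, v (6 + N + j) = c j := by
      intro j
      simp only [v]
      rw [if_neg (by omega), if_neg (by omega), if_neg (by omega), if_neg (by omega),
        if_neg (by omega), if_neg (by omega), if_neg (by omega), Nat.add_sub_cancel_left]
    refine ⟨v, ⟨⟨⟨⟨a1, a2⟩, a3⟩, a4⟩, ?_⟩, ?_⟩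
    · rw [hvb _ (by omega),
        Finset.sum_congr rfl (s₂ := range (N - 2 + 1)) (g := fun j => RatFunc.X ^ j * b j ^ N)
          (fun j hj => by rw [hvb _ (by have := Finset.mem_range.1 hj; omega)]),
        Finset.sum_congr rfl (s₂ := range (N - 2)) (g := fun j => T ^ j * b j)
          (fun j hj => by rw [hvb _ (by have := Finset.mem_range.1 hj; omega)]; rfl)]
      exact hb
    · simp only [hvc]
      rw [hvb _ (by omega), ← Finset.sum_range_succ (fun j => RatFunc.X ^ j * c j ^ N)]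
      exact hc
  · rintro ⟨v, ⟨⟨⟨⟨a1, a2⟩, a3⟩, a4⟩, hb⟩, hc⟩
    refine ⟨_, _, _, _, _, _, v (6 + (N - 2)), a1, a2, a3, a4, ⟨fun j => v (6 + j), hb, rfl⟩,
      ⟨fun j => if j = N - 3 then x else v (6 + N + j), ?_, if_pos rfl⟩⟩
    beta_reduce
    rw [Finset.sum_range_succ, if_pos rfl,
      Finset.sum_congr rfl (s₂ := range (N - 3)) (g := fun j => RatFunc.X ^ j * v (6 + N + j) ^ N)
        (fun j hj => by rw [if_neg (by have := Finset.mem_range.1 hj; omega)]),
      Finset.sum_congr rfl (s₂ := range (N - 3))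
        (f := fun j => v 3 ^ j * if j = N - 3 then x else v (6 + N + j))
        (g := fun j => v 3 ^ j * v (6 + N + j))
        (fun j hj => by rw [if_neg (by have := Finset.mem_range.1 hj; omega)])]
    exact hc

end Pool.Agent.MP_28f2cb_lc.H49
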