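import Mathlib

/-! Additive equations over `F(t)` whose solutions have no finite poles. -/

namespace Pool.Agent.MP_28f2cb_lc.H49

open Polynomial Finset

variable {F : Type*} [Field F]

/-- the image of the polynomial ring in the rational function field -/
noncomputable abbrev PR (F : Type*) [Field F] : Subring (RatFunc F) := (algebraMap F[X] (RatFunc F)).range

theorem lemA (p k : ℕ) [Fact p.Prime] [CharP F p] (J : ℕ) (hJ : J ≤ p ^ k - 1) (W : ℕ → F[X])
    (π : F[X]) (hπ : Irreducible π)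
    (h : π ^ (p ^ k - 1) ∣ ∑ j ∈ range J, X ^ j * W j ^ p ^ k) : ∀ j < J, π ∣ W j := by
  intro j hj
  have : Fact (Irreducible π) := ⟨hπ⟩
  set E := AdjoinRoot π
  set N := p ^ k with hN
  let f : F →+* E := AdjoinRoot.of π
  have : CharP E p := charP_of_injective_ringHom f.injective p
  let α : E := AdjoinRoot.root π
  have hroot : (X - C α) ∣ π.map f := by
    rw [dvd_iff_isRoot]; exact AdjoinRoot.isRoot_root π
  have h1 : (X - C α) ^ (N - 1) ∣ ∑ j ∈ range J, X ^ j * ((W j).map f) ^ N := by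
    have := Polynomial.map_dvd f h
    rw [Polynomial.map_pow, Polynomial.map_sum] at this
    simp only [Polynomial.map_mul, Polynomial.map_pow, map_X] at this
    exact (pow_dvd_pow_of_dvd hroot _).trans this
  let c : ℕ → E := fun j => ((W j).map f).eval α
  have h2 : ∀ j, (X - C α) ^ (N - 1) ∣ ((W j).map f) ^ N - C (c j ^ N) := by
    intro j
    have h3 : (X - C α) ∣ (W j).map f - C (c j) := X_sub_C_dvd_sub_C_eval
    have h4 : ((W j).map f) ^ N - C (c j ^ N) = ((W j).map f - C (c j)) ^ N := by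
      rw [hN, sub_pow_char_pow, C_pow]
    rw [h4]
    exact (pow_dvd_pow _ (Nat.sub_le _ _)).trans (pow_dvd_pow_of_dvd h3 _)
  have h5 : (X - C α) ^ (N - 1) ∣ ∑ j ∈ range J, monomial j (c j ^ N) := by
    have h6 : ∑ j ∈ range J, monomial j (c j ^ N) =
        ∑ j ∈ range J, X ^ j * ((W j).map f) ^ N -
          ∑ j ∈ range J, X ^ j * (((W j).map f) ^ N - C (c j ^ N)) := by
      rw [← Finset.sum_sub_distrib]
      refine Finset.sum_congr rfl fun i _ => ?_
      rw [← C_mul_X_pow_eq_monomial]; ring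
    rw [h6]
    exact dvd_sub h1 (Finset.dvd_sum fun i _ => (h2 i).mul_left _)
  have h7 : ∑ j ∈ range J, monomial j (c j ^ N) = 0 := by
    refine eq_zero_of_dvd_of_natDegree_lt h5 ?_
    rw [natDegree_pow, natDegree_X_sub_C, mul_one]
    have : (∑ j ∈ range J, monomial j (c j ^ N)).natDegree ≤ J - 1 := by
      refine natDegree_sum_le_of_forall_le _ _ fun i hi => ?_
      have := Finset.mem_range.1 hi
      exact (natDegree_monomial_le _).trans (by omega)
    omega
  have h8 : c j ^ N = 0 := by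
    have := congrArg (fun g => coeff g j) h7
    simp only [finsetSum_coeff, coeff_monomial, coeff_zero] at this
    rw [Finset.sum_eq_single j (fun b _ hb => if_neg hb)
      (fun hb => absurd (Finset.mem_range.2 hj) hb), if_pos rfl] at this
    exact this
  have h9 : c j = 0 := (pow_eq_zero_iff (pow_ne_zero k (Fact.out : p.Prime).ne_zero)).1 h8
  rw [← AdjoinRoot.mk_eq_zero, ← AdjoinRoot.aeval_eq, aeval_def, ← eval_map]
  exact h9

/-- shorthand for the inclusion of polynomials -/
noncomputable abbrev ι (F : Type*) [Field F] : F[X] →+* RatFunc F := algebraMap F[X] (RatFunc F)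

theorem ι_inj : Function.Injective (ι F) := IsFractionRing.injective F[X] (RatFunc F)

theorem ι_ne {a : F[X]} (h : a ≠ 0) : ι F a ≠ 0 := fun e => h (ι_inj (by rw [e, map_zero]))

theorem ι_X : ι F X = RatFunc.X := RatFunc.algebraMap_X

theorem X_mem : (RatFunc.X : RatFunc F) ∈ PR F := ⟨X, ι_X⟩

theorem common_den (J : ℕ) (w : ℕ → RatFunc F) :
    ∃ Q : F[X], Q ≠ 0 ∧ ∀ j < J, ι F Q * w j ∈ PR F := by
  induction J with
  | zero => exact ⟨1, one_ne_zero, fun j hj => absurd hj (Nat.not_lt_zero j)⟩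
  | succ J ih =>
    obtain ⟨Q, hQ, h⟩ := ih
    refine ⟨(w J).denom * Q, mul_ne_zero (RatFunc.denom_ne_zero _) hQ, fun j hj => ?_⟩
    rcases Nat.lt_succ_iff_lt_or_eq.1 hj with hj | rfl
    · rw [map_mul, mul_assoc]
      exact (PR F).mul_mem ⟨_, rfl⟩ (h j hj)
    · refine ⟨(w j).num * Q, ?_⟩
      have := RatFunc.num_div_denom (w j)
      have h0 := ι_ne (RatFunc.denom_ne_zero (w j))
      rw [div_eq_iff h0] at this
      rw [map_mul, map_mul, this]; ring

/-- The wound equation has only polynomial solutions. -/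
theorem lemB (p k : ℕ) [Fact p.Prime] [CharP F p] (J : ℕ) (hJ : J ≤ p ^ k - 1)
    (w A : ℕ → RatFunc F) (B : RatFunc F) (hA : ∀ j < J, A j ∈ PR F) (hB : B ∈ PR F)
    (h : ∑ j ∈ range J, RatFunc.X ^ j * w j ^ p ^ k = B + ∑ j ∈ range J, A j * w j) :
    ∀ j < J, w j ∈ PR F := by
  obtain ⟨Q, hQ, hw⟩ := common_den J w
  induction Q using UniqueFactorizationMonoid.induction_on_prime with
  | h₁ => exact absurd rfl hQ
  | h₂ Q hu =>
    intro j hj
    obtain ⟨R, hR⟩ := hu.exists_left_inv
    have : w j = ι F R * (ι F Q * w j) := by rw [← mul_assoc, ← map_mul, hR, map_one, one_mul]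
    rw [this]
    exact (PR F).mul_mem ⟨_, rfl⟩ (hw j hj)
  | h₃ Q π hQ0 hπ ih =>
    refine ih hQ0 ?_
    have hw' : ∀ j, ∃ W : F[X], j < J → ι F W = ι F (π * Q) * w j := by
      intro j
      by_cases hj : j < J
      · obtain ⟨W, hW⟩ := hw j hj
        exact ⟨W, fun _ => hW⟩
      · exact ⟨0, fun h => absurd h hj⟩
    have hA' : ∀ j, ∃ W : F[X], j < J → ι F W = A j := by
      intro j
      by_cases hj : j < J
      · obtain ⟨W, hW⟩ := hA j hj
        exact ⟨W, fun _ => hW⟩
      · exact ⟨0, fun h => absurd h hj⟩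
    choose W hW using hw'
    choose a ha using hA'
    obtain ⟨b, rfl⟩ := hB
    have hN : p ^ k = (p ^ k - 1) + 1 :=
      (Nat.sub_add_cancel (Nat.one_le_pow _ _ (Fact.out : p.Prime).pos)).symm
    have key : ∑ j ∈ range J, X ^ j * W j ^ p ^ k =
        (π * Q) ^ (p ^ k - 1) * (π * Q * b + ∑ j ∈ range J, a j * W j) := by
      apply ι_inj
      have e1 : ι F (∑ j ∈ range J, X ^ j * W j ^ p ^ k) =
          ι F (π * Q) ^ p ^ k * ∑ j ∈ range J, RatFunc.X ^ j * w j ^ p ^ k := by
        rw [map_sum, Finset.mul_sum]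
        refine Finset.sum_congr rfl fun j hj => ?_
        rw [map_mul, map_pow, map_pow, hW j (Finset.mem_range.1 hj), ι_X, mul_pow]; ring
      have e2 : ι F (∑ j ∈ range J, a j * W j) = ι F (π * Q) * ∑ j ∈ range J, A j * w j := by
        rw [map_sum, Finset.mul_sum]
        refine Finset.sum_congr rfl fun j hj => ?_
        rw [map_mul, hW j (Finset.mem_range.1 hj), ha j (Finset.mem_range.1 hj)]; ring
      rw [e1, h, map_mul (ι F) ((π * Q) ^ _), map_add, e2, map_pow, map_mul (ι F) (π * Q) b]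
      conv_lhs => rw [hN, pow_succ]
      ring
    have hd : π ^ (p ^ k - 1) ∣ ∑ j ∈ range J, X ^ j * W j ^ p ^ k := by
      rw [key, mul_pow, mul_assoc]; exact dvd_mul_right _ _
    intro j hj
    obtain ⟨V, hV⟩ := lemA p k J hJ W π hπ.irreducible hd j hj
    refine ⟨V, ?_⟩
    have := hW j hj
    rw [hV, map_mul, map_mul, mul_assoc] at this
    exact mul_left_cancel₀ (ι_ne hπ.ne_zero) this

theorem lowest {a b c d : F[X]} (h1 : IsCoprime a b) (h2 : IsCoprime d c)
    (h : a * d = c * b) : ∃ e : F, a = C e * c := by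
  have e1 : a ∣ c := h1.dvd_of_dvd_mul_right ⟨d, h.symm⟩
  have e2 : c ∣ a := h2.symm.dvd_of_dvd_mul_right ⟨b, h⟩
  obtain ⟨u, hu⟩ := associated_of_dvd_dvd e2 e1
  obtain ⟨r, -, hr⟩ := Polynomial.isUnit_iff.1 u.isUnit
  exact ⟨r, by rw [← hu, ← hr, mul_comm]⟩

/-- the shape of a solution of the two Artin-Schreier type equations -/
theorem shape (N : ℕ) (hN : 2 ≤ N) (T u w : RatFunc F) (h1 : T - RatFunc.X = u ^ N - u)
    (h2 : RatFunc.X - T = (w ^ N - w) * RatFunc.X * T) :
    ∃ a s s' : F[X], s ≠ 0 ∧ IsCoprime a s ∧ T * ι F s ^ N = ι F a ∧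
      ∃ e : F, a = C e * s' ^ N ∨ a = C e * (X * s' ^ N) := by
  obtain ⟨M, rfl⟩ : ∃ M, N = M + 2 := ⟨N - 2, by omega⟩
  set r := u.num
  set s := u.denom
  set r' := w.num
  set s' := w.denom
  have hs : s ≠ 0 := RatFunc.denom_ne_zero u
  have hs' : s' ≠ 0 := RatFunc.denom_ne_zero w
  have hu : ι F r = u * ι F s := by
    have := RatFunc.num_div_denom u
    rwa [div_eq_iff (ι_ne hs)] at this
  have hw : ι F r' = w * ι F s' := by
    have := RatFunc.num_div_denom w
    rwa [div_eq_iff (ι_ne hs')] at this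
  have c1 : IsCoprime r s := RatFunc.isCoprime_num_denom u
  have c2 : IsCoprime r' s' := RatFunc.isCoprime_num_denom w
  set a : F[X] := r ^ (M + 2) + s * (X * s ^ (M + 1) - r * s ^ M) with ha
  have ca : IsCoprime a s := (c1.pow_left (m := M + 2)).add_mul_left_left _
  have hT : T * ι F s ^ (M + 2) = ι F a := by
    rw [ha]
    simp only [map_add, map_mul, map_sub, map_pow, ι_X, hu]
    rw [show T = RatFunc.X + u ^ (M + 2) - u by linear_combination h1]
    ring
  refine ⟨a, s, s', hs, ca, hT, ?_⟩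
  have hmain : a * (s' ^ (M + 2) + X * (r' ^ (M + 2) - r' * s' ^ (M + 1))) =
      X * s' ^ (M + 2) * s ^ (M + 2) := by
    apply ι_inj
    simp only [map_add, map_mul, map_sub, map_pow, ι_X, hw]
    rw [← hT]
    linear_combination (-(ι F s) ^ (M + 2) * (ι F s') ^ (M + 2)) * h2
  by_cases hX : X ∣ s'
  · obtain ⟨s'', hs''⟩ := hX
    have h3 : a * (r' ^ (M + 2) + s' * (s'' * s' ^ M - r' * s' ^ M)) =
        s' ^ (M + 2) * s ^ (M + 2) := by
      apply mul_left_cancel₀ (X_ne_zero (R := F))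
      linear_combination hmain - a * s' ^ (M + 1) * hs''
    obtain ⟨e, he⟩ := lowest (ca.pow_right (n := M + 2))
      (((c2.pow_left (m := M + 2)).add_mul_left_left _).pow_right (n := M + 2)) h3
    exact ⟨e, Or.inl he⟩
  · have cX : IsCoprime X s' := (Prime.coprime_iff_not_dvd prime_X).2 hX
    have c3 : IsCoprime (s' ^ (M + 2) + X * (r' ^ (M + 2) - r' * s' ^ (M + 1))) X :=
      (cX.symm.pow_left (m := M + 2)).add_mul_left_left _
    have c4 : IsCoprime (s' ^ (M + 2) + X * (r' ^ (M + 2) - r' * s' ^ (M + 1))) s' := by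
      have := (cX.mul_left (c2.pow_left (m := M + 2))).add_mul_left_left
        (s' ^ (M + 1) - X * r' * s' ^ M)
      rwa [show X * r' ^ (M + 2) + s' * (s' ^ (M + 1) - X * r' * s' ^ M) =
        s' ^ (M + 2) + X * (r' ^ (M + 2) - r' * s' ^ (M + 1)) by ring] at this
    obtain ⟨e, he⟩ := lowest (ca.pow_right (n := M + 2))
      (c3.mul_right (c4.pow_right (n := M + 2))) hmain
    exact ⟨e, Or.inr he⟩

theorem charP_K (p : ℕ) [CharP F p] : CharP (RatFunc F) p :=
  charP_of_injective_ringHom (f := (ι F).comp C) (RingHom.injective _) p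

/-- The equations of Pheidas, with a power of the characteristic, force a polynomial. -/
theorem lemC (p k : ℕ) [Fact p.Prime] [CharP F p] (hN : 3 ≤ p ^ k)
    (hperf : ∀ e : F, ∃ d : F, d ^ p ^ k = e) (T u w : RatFunc F)
    (h1 : T - RatFunc.X = u ^ p ^ k - u)
    (h2 : RatFunc.X - T = (w ^ p ^ k - w) * RatFunc.X * T) : T ∈ PR F := by
  have := charP_K (F := F) p
  suffices H : ∀ n : ℕ, ∀ (T u w : RatFunc F) (Q : F[X]), Q ≠ 0 → Q.natDegree < n →
      ι F Q * T ∈ PR F → T - RatFunc.X = u ^ p ^ k - u →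
      RatFunc.X - T = (w ^ p ^ k - w) * RatFunc.X * T → T ∈ PR F by
    obtain ⟨Q, hQ, h⟩ := common_den 1 (fun _ => T)
    exact H _ T u w Q hQ (Nat.lt_succ_self _) (h 0 one_pos) h1 h2
  intro n
  induction n with
  | zero => intro T u w Q _ h; exact absurd h (Nat.not_lt_zero _)
  | succ n ih =>
    intro T u w Q hQ hn hQT h1 h2
    obtain ⟨a, s, s', hs, ca, hT, e, he⟩ := shape (p ^ k) (by omega) T u w h1 h2
    obtain ⟨d, rfl⟩ := hperf e
    have hs0 := ι_ne hs
    set g : RatFunc F := ι F (C d * s') / ι F s with hg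
    have hgs : ι F s * g = ι F (C d * s') := by rw [hg]; field_simp
    have hgN : g ^ p ^ k * ι F s ^ p ^ k = ι F (C (d ^ p ^ k) * s' ^ p ^ k) := by
      rw [← mul_pow, mul_comm g, hgs, ← map_pow, mul_pow, C_pow]
    rcases he with he | he
    · have hTg : T = g ^ p ^ k := by
        apply mul_right_cancel₀ (pow_ne_zero (p ^ k) hs0)
        rw [hT, hgN, he]
      by_cases hd : s.natDegree = 0
      · rw [hTg]
        refine (PR F).pow_mem ?_ _
        obtain ⟨c, hc⟩ := natDegree_eq_zero.1 hd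
        have hc0 : c ≠ 0 := by rintro rfl; exact hs (by rw [← hc, map_zero])
        refine ⟨C c⁻¹ * (C d * s'), ?_⟩
        rw [map_mul, ← hgs, ← mul_assoc, ← map_mul, ← hc, ← C_mul, inv_mul_cancel₀ hc0, C_1,
          map_one, one_mul]
      · obtain ⟨V, hV⟩ := hQT
        have hdv : s ^ p ^ k ∣ Q := by
          refine (ca.symm.pow_left (m := p ^ k)).dvd_of_dvd_mul_right ⟨V, ι_inj ?_⟩
          rw [map_mul, map_mul, map_pow, ← hT, hV]; ring
        have hdeg := natDegree_le_of_dvd hdv hQ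
        rw [natDegree_pow] at hdeg
        have hlt : s.natDegree < n := by
          have : 3 * s.natDegree ≤ p ^ k * s.natDegree := Nat.mul_le_mul_right _ hN
          omega
        have hT0 : T ≠ 0 := by
          rintro rfl
          exact RatFunc.X_ne_zero (by simpa using h2)
        have hg0 : g ≠ 0 := by
          intro h0
          rw [h0, zero_pow (by omega)] at hTg
          exact hT0 hTg
        rw [hTg]
        refine (PR F).pow_mem (ih g (u - g) (w - g⁻¹) s hs hlt ⟨_, hgs.symm⟩ ?_ ?_) _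
        · rw [sub_pow_char_pow, ← hTg]; linear_combination h1
        · rw [sub_pow_char_pow, inv_pow, ← hTg]
          apply mul_left_cancel₀ hT0
          have i1 : T * T⁻¹ = 1 := mul_inv_cancel₀ hT0
          have i2 : g * g⁻¹ = 1 := mul_inv_cancel₀ hg0
          linear_combination g * h2 + RatFunc.X * g * i1 - T * RatFunc.X * i2
    · have hTg : T = RatFunc.X * g ^ p ^ k := by
        apply mul_right_cancel₀ (pow_ne_zero (p ^ k) hs0)
        rw [hT, mul_assoc, hgN, he, ← ι_X, ← map_mul]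
        congr 1; ring
      have hu : (0 - u) ∈ PR F := by
        refine lemB p k 2 (by omega) (fun j => if j = 0 then 0 - u else g - 1)
          (fun j => if j = 0 then 1 else 0) 0 ?_ (PR F).zero_mem ?_ 0 two_pos
        · intro j _
          split_ifs
          exacts [(PR F).one_mem, (PR F).zero_mem]
        · simp only [Finset.sum_range_succ, Finset.sum_range_zero, if_true, one_ne_zero, if_false]
          rw [sub_pow_char_pow, sub_pow_char_pow, zero_pow (by omega), one_pow]
          linear_combination h1 - hTg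
      have hu' : u ∈ PR F := by
        have := (PR F).neg_mem hu
        rwa [zero_sub, neg_neg] at this
      rw [show T = RatFunc.X + u ^ p ^ k - u by linear_combination h1]
      exact (PR F).sub_mem ((PR F).add_mem X_mem ((PR F).pow_mem hu' _)) hu'

theorem as_iter {K : Type*} [CommRing K] (p k : ℕ) [Fact p.Prime] [CharP K p] (z : K) (s : ℕ) :
    ∃ u : K, z ^ (p ^ k) ^ s - z = u ^ p ^ k - u := by
  induction s with
  | zero => exact ⟨0, by simp [(Fact.out : p.Prime).ne_zero]⟩
  | succ s ih =>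
    obtain ⟨u, hu⟩ := ih
    refine ⟨u + z ^ (p ^ k) ^ s, ?_⟩
    rw [add_pow_char_pow, pow_succ (p ^ k), pow_mul]
    linear_combination hu

theorem lemC_sol (p k : ℕ) [Fact p.Prime] [CharP F p] (s : ℕ) :
    ∃ u w : RatFunc F, RatFunc.X ^ (p ^ k) ^ s - RatFunc.X = u ^ p ^ k - u ∧
      RatFunc.X - RatFunc.X ^ (p ^ k) ^ s =
        (w ^ p ^ k - w) * RatFunc.X * RatFunc.X ^ (p ^ k) ^ s := by
  have := charP_K (F := F) p
  obtain ⟨u, hu⟩ := as_iter p k (RatFunc.X : RatFunc F) s
  obtain ⟨w, hw⟩ := as_iter p k (RatFunc.X : RatFunc F)⁻¹ s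
  refine ⟨u, w, hu, ?_⟩
  have h0 : (RatFunc.X : RatFunc F) ≠ 0 := RatFunc.X_ne_zero
  rw [← hw, inv_pow]
  field_simp

end Pool.Agent.MP_28f2cb_lc.H49
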